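import Mathlib

namespace Pool.Agent.Results.MP_aa1cdf_co.Q1

open Matrix

/-- The rank-one form of an integer vector. -/
def p {g : ℕ} (v : Fin g → ℤ) : Matrix (Fin g) (Fin g) ℤ := vecMulVec v v

/-- The lattice of integral symmetric matrices. -/
def SymZ (g : ℕ) : Submodule ℤ (Matrix (Fin g) (Fin g) ℤ) where
  carrier := {M | M.IsSymm}
  add_mem' := fun ha hb => ha.add hb
  zero_mem' := isSymm_zero
  smul_mem' := fun c _ h => h.smul c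

/-- The value of the quadratic form with Gram matrix `Q` at an integer vector. -/
def val {g : ℕ} (Q : Matrix (Fin g) (Fin g) ℝ) (v : Fin g → ℤ) : ℝ :=
  (fun i => (v i : ℝ)) ⬝ᵥ Q *ᵥ (fun i => (v i : ℝ))

/-- The set of minimal vectors of `Q`. -/
def Min {g : ℕ} (Q : Matrix (Fin g) (Fin g) ℝ) : Set (Fin g → ℤ) :=
  {v | v ≠ 0 ∧ ∀ w, w ≠ 0 → val Q v ≤ val Q w}

def a (i j : ℕ) : ℤ := if (j - i) % 11 = 0 ∨ (j - i) % 11 = 1 ∨ (j - i) % 11 = 2 ∨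
  (j - i) % 11 = 4 ∨ (j - i) % 11 = 7 then 1 else 0

def B : Matrix (Fin 22) (Fin 22) ℤ := Matrix.of fun i j =>
  if i.1 < 11 then (if j.1 < 11 then (if i.1 = j.1 then 1 else 0) else a i.1 j.1)
  else if i.1 = j.1 then 2 else 0

def V : Matrix (Fin 22) (Fin 22) ℤ := Matrix.of fun i j =>
  if i.1 < 11 then (if j.1 < 11 then (if i.1 = j.1 then 2 else 0) else -a i.1 j.1)
  else if i.1 = j.1 then 1 else 0

lemma VB : V * B = (2 : ℤ) • 1 := by decide +kernel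
lemma BV : B * V = (2 : ℤ) • 1 := by decide +kernel

lemma ev : ∀ i j, (∑ k, V k i * V k j) % 2 = 0 := by decide +kernel

lemma bit (z : ℤ) : ∃ b : Fin 2, z % 2 = (b.1 : ℤ) := by
  rcases Int.emod_two_eq_zero_or_one z with h | h
  exacts [⟨0, h⟩, ⟨1, h⟩]

lemma K : ∀ b0 b1 b2 b3 b4 b5 b6 b7 b8 b9 b10 : Fin 2,
    b0.1 + b1.1 + b2.1 + b3.1 + b4.1 + b5.1 + b6.1 + b7.1 + b8.1 + b9.1 + b10.1 +
      (b0.1 + b4.1 + b7.1 + b9.1 + b10.1) % 2 +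
      (b0.1 + b1.1 + b5.1 + b8.1 + b10.1) % 2 +
      (b0.1 + b1.1 + b2.1 + b6.1 + b9.1) % 2 +
      (b1.1 + b2.1 + b3.1 + b7.1 + b10.1) % 2 +
      (b0.1 + b2.1 + b3.1 + b4.1 + b8.1) % 2 +
      (b1.1 + b3.1 + b4.1 + b5.1 + b9.1) % 2 +
      (b2.1 + b4.1 + b5.1 + b6.1 + b10.1) % 2 +
      (b0.1 + b3.1 + b5.1 + b6.1 + b7.1) % 2 +
      (b1.1 + b4.1 + b6.1 + b7.1 + b8.1) % 2 +
      (b2.1 + b5.1 + b7.1 + b8.1 + b9.1) % 2 +
      (b3.1 + b6.1 + b8.1 + b9.1 + b10.1) % 2 = 0 ∨ 5 ≤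
    b0.1 + b1.1 + b2.1 + b3.1 + b4.1 + b5.1 + b6.1 + b7.1 + b8.1 + b9.1 + b10.1 +
      (b0.1 + b4.1 + b7.1 + b9.1 + b10.1) % 2 +
      (b0.1 + b1.1 + b5.1 + b8.1 + b10.1) % 2 +
      (b0.1 + b1.1 + b2.1 + b6.1 + b9.1) % 2 +
      (b1.1 + b2.1 + b3.1 + b7.1 + b10.1) % 2 +
      (b0.1 + b2.1 + b3.1 + b4.1 + b8.1) % 2 +
      (b1.1 + b3.1 + b4.1 + b5.1 + b9.1) % 2 +
      (b2.1 + b4.1 + b5.1 + b6.1 + b10.1) % 2 +
      (b0.1 + b3.1 + b5.1 + b6.1 + b7.1) % 2 +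
      (b1.1 + b4.1 + b6.1 + b7.1 + b8.1) % 2 +
      (b2.1 + b5.1 + b7.1 + b8.1 + b9.1) % 2 +
      (b3.1 + b6.1 + b8.1 + b9.1 + b10.1) % 2 := by
  decide +kernel

lemma y_eq (x : Fin 22 → ℤ) : x ᵥ* B = ![x 0, x 1, x 2, x 3, x 4, x 5, x 6, x 7, x 8, x 9, x 10, 
    x 0 + x 4 + x 7 + x 9 + x 10 + 2 * x 11, 
    x 0 + x 1 + x 5 + x 8 + x 10 + 2 * x 12, 
    x 0 + x 1 + x 2 + x 6 + x 9 + 2 * x 13, 
    x 1 + x 2 + x 3 + x 7 + x 10 + 2 * x 14, 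
    x 0 + x 2 + x 3 + x 4 + x 8 + 2 * x 15, 
    x 1 + x 3 + x 4 + x 5 + x 9 + 2 * x 16, 
    x 2 + x 4 + x 5 + x 6 + x 10 + 2 * x 17, 
    x 0 + x 3 + x 5 + x 6 + x 7 + 2 * x 18, 
    x 1 + x 4 + x 6 + x 7 + x 8 + 2 * x 19, 
    x 2 + x 5 + x 7 + x 8 + x 9 + 2 * x 20, 
    x 3 + x 6 + x 8 + x 9 + x 10 + 2 * x 21] := by
  funext j
  fin_cases j <;> simp [vecMul, dotProduct, Fin.sum_univ_succ, B, a] <;> ring

lemma e5 {x1 x2 x3 x4 x5 z : ℤ} {b1 b2 b3 b4 b5 : ℕ} (h1 : x1 % 2 = b1) (h2 : x2 % 2 = b2)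
    (h3 : x3 % 2 = b3) (h4 : x4 % 2 = b4) (h5 : x5 % 2 = b5) :
    (x1 + x2 + x3 + x4 + x5 + 2 * z) % 2 = (((b1 + b2 + b3 + b4 + b5) % 2 : ℕ) : ℤ) := by
  omega

lemma wt (x : Fin 22 → ℤ) : ∑ j, (x ᵥ* B) j % 2 = 0 ∨ 5 ≤ ∑ j, (x ᵥ* B) j % 2 := by
  obtain ⟨b0, h0⟩ := bit (x 0)
  obtain ⟨b1, h1⟩ := bit (x 1)
  obtain ⟨b2, h2⟩ := bit (x 2)
  obtain ⟨b3, h3⟩ := bit (x 3)
  obtain ⟨b4, h4⟩ := bit (x 4)
  obtain ⟨b5, h5⟩ := bit (x 5)
  obtain ⟨b6, h6⟩ := bit (x 6)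
  obtain ⟨b7, h7⟩ := bit (x 7)
  obtain ⟨b8, h8⟩ := bit (x 8)
  obtain ⟨b9, h9⟩ := bit (x 9)
  obtain ⟨b10, h10⟩ := bit (x 10)
  rw [y_eq]
  simp only [Fin.sum_univ_succ, Matrix.cons_val_zero, Matrix.cons_val_succ, Finset.univ_eq_empty,
    Finset.sum_empty]
  rw [e5 h0 h4 h7 h9 h10, e5 h0 h1 h5 h8 h10, e5 h0 h1 h2 h6 h9, e5 h1 h2 h3 h7 h10, e5 h0 h2 h3 h4 h8, e5 h1 h3 h4 h5 h9, e5 h2 h4 h5 h6 h10, e5 h0 h3 h5 h6 h7, e5 h1 h4 h6 h7 h8, e5 h2 h5 h7 h8 h9, e5 h3 h6 h8 h9 h10,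
    h0, h1, h2, h3, h4, h5, h6, h7, h8, h9, h10]
  have hK := K b0 b1 b2 b3 b4 b5 b6 b7 b8 b9 b10
  clear h0 h1 h2 h3 h4 h5 h6 h7 h8 h9 h10
  generalize (b0.1 + b4.1 + b7.1 + b9.1 + b10.1) % 2 = c0 at hK ⊢
  generalize (b0.1 + b1.1 + b5.1 + b8.1 + b10.1) % 2 = c1 at hK ⊢
  generalize (b0.1 + b1.1 + b2.1 + b6.1 + b9.1) % 2 = c2 at hK ⊢
  generalize (b1.1 + b2.1 + b3.1 + b7.1 + b10.1) % 2 = c3 at hK ⊢
  generalize (b0.1 + b2.1 + b3.1 + b4.1 + b8.1) % 2 = c4 at hK ⊢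
  generalize (b1.1 + b3.1 + b4.1 + b5.1 + b9.1) % 2 = c5 at hK ⊢
  generalize (b2.1 + b4.1 + b5.1 + b6.1 + b10.1) % 2 = c6 at hK ⊢
  generalize (b0.1 + b3.1 + b5.1 + b6.1 + b7.1) % 2 = c7 at hK ⊢
  generalize (b1.1 + b4.1 + b6.1 + b7.1 + b8.1) % 2 = c8 at hK ⊢
  generalize (b2.1 + b5.1 + b7.1 + b8.1 + b9.1) % 2 = c9 at hK ⊢
  generalize (b3.1 + b6.1 + b8.1 + b9.1 + b10.1) % 2 = c10 at hK ⊢
  omega

lemma inj {x x' : Fin 22 → ℤ} (h : x ᵥ* B = x' ᵥ* B) : x = x' := by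
  have := congrArg (· ᵥ* V) h
  simp only [vecMul_vecMul, BV, vecMul_smul, vecMul_one] at this
  exact smul_right_injective _ two_ne_zero this

lemma row (i : Fin 22) : V i ᵥ* B = Pi.single i 2 := by
  funext j
  have := congrFun (congrFun VB i) j
  rw [mul_apply] at this
  simp only [vecMul, dotProduct, this, Matrix.smul_apply, one_apply, Pi.single_apply, eq_comm]
  split_ifs <;> simp

def N (x : Fin 22 → ℤ) : ℤ := ∑ j, (x ᵥ* B) j ^ 2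

lemma N_row (i : Fin 22) : N (V i) = 4 ∧ N (-V i) = 4 := by
  simp [N, neg_vecMul, row, Pi.single_apply]

lemma main {x : Fin 22 → ℤ} (hx : x ≠ 0) : 4 ≤ N x ∧ (N x ≤ 4 → ∃ i, x = V i ∨ x = -V i) := by
  have h0 : ∀ z : ℤ, 0 ≤ z % 2 ∧ z % 2 ≤ z ^ 2 := fun z => by
    rcases Int.emod_two_eq_zero_or_one z with h | h
    · rw [h]; exact ⟨le_rfl, sq_nonneg z⟩
    · have : z ≠ 0 := by omega
      have : 0 < z ^ 2 := by positivity
      omega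
  rcases wt x with h | h
  · rw [Finset.sum_eq_zero_iff_of_nonneg fun j _ => (h0 _).1] at h
    obtain ⟨i, hi⟩ : ∃ i, (x ᵥ* B) i ≠ 0 := by
      by_contra hc
      push Not at hc
      exact hx (inj (by rw [zero_vecMul]; exact funext hc))
    have e := Finset.add_sum_erase Finset.univ (fun j => (x ᵥ* B) j ^ 2) (Finset.mem_univ i)
    have p1 : 0 ≤ ∑ j ∈ Finset.univ.erase i, (x ᵥ* B) j ^ 2 :=
      Finset.sum_nonneg fun j _ => sq_nonneg _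
    have p2 := h i (Finset.mem_univ i)
    have p3 : (x ᵥ* B) i ≤ -2 ∨ 2 ≤ (x ᵥ* B) i := by omega
    have p4 : 4 ≤ (x ᵥ* B) i ^ 2 := by rcases p3 with h | h <;> nlinarith
    unfold N
    refine ⟨by linarith, fun h4 => ⟨i, ?_⟩⟩
    have p5 : ∑ j ∈ Finset.univ.erase i, (x ᵥ* B) j ^ 2 = 0 := by linarith
    rw [Finset.sum_eq_zero_iff_of_nonneg fun j _ => sq_nonneg _] at p5
    have p6 : ∀ j, j ≠ i → (x ᵥ* B) j = 0 := fun j hj => by simpa using p5 j (by simpa using hj)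
    have p7 : (x ᵥ* B) i ^ 2 ≤ 4 := by linarith
    rcases p3 with h | h
    · refine Or.inr (inj (funext fun j => ?_))
      rw [neg_vecMul, row, Pi.neg_apply, Pi.single_apply]
      split_ifs with hj
      · rw [hj]; nlinarith
      · simpa using p6 j hj
    · refine Or.inl (inj (funext fun j => ?_))
      rw [row, Pi.single_apply]
      split_ifs with hj
      · rw [hj]; nlinarith
      · exact p6 j hj
  · have : 5 ≤ N x := h.trans (Finset.sum_le_sum fun j _ => (h0 _).2)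
    exact ⟨by omega, fun h => by omega⟩

noncomputable def BR : Matrix (Fin 22) (Fin 22) ℝ := B.map (Int.castRingHom ℝ)

lemma val_eq (x : Fin 22 → ℤ) : val (BR * BRᴴ) x = N x := by
  unfold val N
  rw [← mulVec_mulVec, dotProduct_mulVec, conjTranspose_eq_transpose_of_trivial, mulVec_transpose]
  push_cast
  refine Finset.sum_congr rfl fun j _ => ?_
  simp [vecMul, dotProduct, BR, sq]

theorem result : ∃ (g : ℕ) (v : Fin g → Fin g → ℤ) (Q : Matrix (Fin g) (Fin g) ℝ),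
    LinearIndependent ℤ v ∧ Q.PosDef ∧ Min Q = {w | ∃ i, w = v i ∨ w = -v i} ∧
    ¬ ∃ (ι : Type) (b : Module.Basis ι ℤ (SymZ g)) (f : Fin g → ι),
      ∀ i, (b (f i) : Matrix (Fin g) (Fin g) ℤ) = p (v i) := by
  have nz : ∀ i, V i ≠ 0 := by decide +kernel
  refine ⟨22, V, BR * BRᴴ, ?_, ?_, ?_, ?_⟩
  · rw [Fintype.linearIndependent_iff]
    intro c hc i
    have h1 : c ᵥ* V = 0 := by
      rw [← hc]; funext j; simp [vecMul, dotProduct, Finset.sum_apply]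
    have := congrArg (· ᵥ* B) h1
    simp only [vecMul_vecMul, VB, vecMul_smul, vecMul_one, zero_vecMul] at this
    simpa using congrFun this i
  · apply PosDef.mul_conjTranspose_self
    intro x x' h
    have e : BR * V.map (Int.castRingHom ℝ) = (2 : ℝ) • 1 := by
      rw [BR, ← Matrix.map_mul, BV]
      ext i j
      simp only [map_apply, Matrix.smul_apply, one_apply]
      split_ifs <;> simp
    have := congrArg (· ᵥ* V.map (Int.castRingHom ℝ)) h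
    simp only [vecMul_vecMul, e, vecMul_smul, vecMul_one] at this
    exact smul_right_injective _ two_ne_zero this
  · ext w
    simp only [Min, val_eq, Int.cast_le, Set.mem_ofPred_eq]
    constructor
    · rintro ⟨h1, h2⟩
      exact (main h1).2 ((h2 _ (nz 0)).trans (N_row 0).1.le)
    · rintro ⟨i, rfl | rfl⟩
      · exact ⟨nz i, fun u hu => (N_row i).1 ▸ (main hu).1⟩
      · exact ⟨neg_ne_zero.2 (nz i), fun u hu => (N_row i).2 ▸ (main hu).1⟩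
  · rintro ⟨ι, b, f, h⟩
    classical
    let M : SymZ 22 := ⟨Matrix.of fun i j => (∑ k, V k i * V k j) / 2, by
      ext i j; simp only [transpose_apply, of_apply, mul_comm]⟩
    have hM : (2 : ℤ) • M = ∑ k, b (f k) := by
      apply Subtype.ext
      rw [Submodule.coe_sum]
      simp only [h]
      ext i j
      have := ev i j
      simp only [M, SetLike.val_smul, Matrix.smul_apply, of_apply, smul_eq_mul, Matrix.sum_apply, p,
        vecMulVec_apply]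
      omega
    have hp : ∀ k : Fin 22, p (V k) = p (V 0) → k = 0 := by decide +kernel
    have := congrArg (fun z => b.repr z (f 0)) hM
    simp only [map_smul, map_sum, Module.Basis.repr_self, Finsupp.smul_apply, smul_eq_mul,
      Finsupp.finsetSum_apply] at this
    rw [Finset.sum_eq_single 0] at this
    · rw [Finsupp.single_eq_same] at this; omega
    · intro k _ hk
      refine Finsupp.single_eq_of_ne fun e => hk (hp k ?_)
      rw [← h, ← h, e]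
    · simp

end Pool.Agent.Results.MP_aa1cdf_co.Q1
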